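import Mathlib

/-! A zero-dimensional space whose two-valued function space embeds in the function space
of a compact space (pointwise topologies) with norm-discrete image is compact. -/

set_option autoImplicit false

namespace Pool.Agent.Lib.MP_0333c9_gt.TwoValued

open Topology TopologicalSpace Set Function

theorem clos {K Y : Type*} [TopologicalSpace K] [TopologicalSpace Y] [DiscreteTopology Y]
    (S : Set {g : K → Y // Continuous g}) (g : {g : K → Y // Continuous g}) :
    g ∈ closure S ↔ ∀ (n : ℕ) (k : Fin n → K), ∃ f ∈ S, ∀ i, f.1 (k i) = g.1 (k i) := by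
  constructor
  · intro h n k
    have ho : IsOpen {f : {g : K → Y // Continuous g} | ∀ i, f.1 (k i) = g.1 (k i)} := by
      rw [Set.ofPred_forall]
      refine isOpen_iInter_of_finite fun i => ?_
      have hc : Continuous fun f : {g : K → Y // Continuous g} => f.1 (k i) :=
        (continuous_apply (k i)).comp continuous_subtype_val
      exact (isOpen_discrete {g.1 (k i)}).preimage hc
    obtain ⟨f, h1, h2⟩ := mem_closure_iff.1 h _ ho (fun _ => rfl)
    exact ⟨f, h2, h1⟩
  · intro h
    rw [mem_closure_iff_nhds]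
    intro t ht
    rw [nhds_subtype, Filter.mem_comap] at ht
    obtain ⟨u, hu, hut⟩ := ht
    rw [nhds_pi, Filter.mem_pi] at hu
    obtain ⟨I, hI, w, hw, hIw⟩ := hu
    obtain ⟨n, k, -, rfl⟩ := hI.fin_param
    obtain ⟨f, hf, e⟩ := h n k
    refine ⟨f, hut (hIw ?_), hf⟩
    rintro _ ⟨i, rfl⟩
    rw [e i]
    exact mem_of_mem_nhds (hw _)

theorem closR {K : Type*} [TopologicalSpace K]
    (S : Set {g : K → ℝ // Continuous g}) (g : {g : K → ℝ // Continuous g}) :
    g ∈ closure S ↔ ∀ (n : ℕ) (k : Fin n → K) (ε : ℝ), 0 < ε →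
      ∃ f ∈ S, ∀ i, dist (f.1 (k i)) (g.1 (k i)) < ε := by
  constructor
  · intro h n k ε hε
    have ho : IsOpen {f : {g : K → ℝ // Continuous g} |
        ∀ i, dist (f.1 (k i)) (g.1 (k i)) < ε} := by
      rw [Set.ofPred_forall]
      refine isOpen_iInter_of_finite fun i => ?_
      have hc : Continuous fun f : {g : K → ℝ // Continuous g} => f.1 (k i) :=
        (continuous_apply (k i)).comp continuous_subtype_val
      exact isOpen_lt (hc.dist continuous_const) continuous_const
    obtain ⟨f, h1, h2⟩ := mem_closure_iff.1 h _ ho (fun _ => by simpa using hε)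
    exact ⟨f, h2, h1⟩
  · intro h
    rw [mem_closure_iff_nhds]
    intro t ht
    rw [nhds_subtype, Filter.mem_comap] at ht
    obtain ⟨u, hu, hut⟩ := ht
    rw [nhds_pi, Filter.mem_pi] at hu
    obtain ⟨I, hI, w, hw, hIw⟩ := hu
    obtain ⟨n, k, -, rfl⟩ := hI.fin_param
    have h3 : ∀ᶠ ε in 𝓝[>] (0 : ℝ), ∀ i, Metric.ball (g.1 (k i)) ε ⊆ w (k i) :=
      Filter.eventually_all.2 fun i => by
        obtain ⟨r, hr, h5⟩ := Metric.mem_nhds_iff.1 (hw (k i))
        filter_upwards [mem_nhdsWithin_of_mem_nhds (Iio_mem_nhds hr)] with ε hε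
        exact (Metric.ball_subset_ball (le_of_lt hε)).trans h5
    obtain ⟨ε, h4, hε⟩ := (h3.and self_mem_nhdsWithin).exists
    obtain ⟨f, hf, e⟩ := h n k ε hε
    refine ⟨f, hut (hIw ?_), hf⟩
    rintro _ ⟨i, rfl⟩
    exact h4 i (e i)

theorem tight {K : Type*} [TopologicalSpace K] [CompactSpace K]
    (A : Set {g : K → ℝ // Continuous g}) (g : {g : K → ℝ // Continuous g})
    (hg : g ∈ closure A) : ∃ B ⊆ A, B.Countable ∧ g ∈ closure B := by
  have h : ∀ p : ℕ × ℕ, ∃ t : Finset A, (univ : Set (Fin p.1 → K)) ⊆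
      ⋃ f ∈ t, {k | ∀ i, dist (f.1.1 (k i)) (g.1 (k i)) < 1 / ((p.2 : ℝ) + 1)} := fun p => by
    refine isCompact_univ.elim_finite_subcover
      (fun f : A => {k : Fin p.1 → K |
        ∀ i, dist (f.1.1 (k i)) (g.1 (k i)) < 1 / ((p.2 : ℝ) + 1)}) (fun f => ?_) fun k _ => ?_
    · rw [Set.ofPred_forall]
      refine isOpen_iInter_of_finite fun i => ?_
      exact isOpen_lt ((f.1.2.comp (continuous_apply i)).dist (g.2.comp (continuous_apply i)))
        continuous_const
    · obtain ⟨f, hf, e⟩ := (closR A g).1 hg p.1 k _ (Nat.one_div_pos_of_nat (n := p.2))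
      exact mem_iUnion.2 ⟨⟨f, hf⟩, e⟩
  choose t ht using h
  refine ⟨⋃ p, Subtype.val '' (t p : Set A), ?_, ?_, (closR _ g).2 fun n k ε hε => ?_⟩
  · rintro _ ⟨_, ⟨n, rfl⟩, f, -, rfl⟩
    exact f.2
  · exact countable_iUnion fun n => (t n).countable_toSet.image _
  · obtain ⟨m, hm⟩ := exists_nat_one_div_lt hε
    obtain ⟨f, hf, e⟩ := mem_iUnion₂.1 (ht (n, m) (mem_univ k))
    exact ⟨f.1, mem_iUnion.2 ⟨(n, m), f, hf, rfl⟩, fun i => (e i).trans hm⟩

theorem noCantor {K : Type*} [TopologicalSpace K] [CompactSpace K]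
    (φ : (ℕ → Bool) → {g : K → ℝ // Continuous g}) (hc : Continuous φ)
    (hi : ∀ s, ∃ δ > 0, ∀ s', (∀ k, |(φ s').1 k - (φ s).1 k| < δ) → s' = s) : False := by
  let π : K → ℕ → ℝ := fun k n => (φ (denseSeq (ℕ → Bool) n)).1 k
  have hπ : Continuous π := continuous_pi fun n => (φ _).2
  have : CompactSpace (range π) := isCompact_iff_compactSpace.1 (isCompact_range hπ)
  have hπ' : Continuous (rangeFactorization π) := hπ.subtype_mk _
  have hq : IsQuotientMap (rangeFactorization π) :=
    hπ'.isClosedMap.isQuotientMap hπ' rangeFactorization_surjective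
  have fac : ∀ k k', π k = π k' → ∀ s, (φ s).1 k = (φ s).1 k' := fun k k' e s => by
    have c : ∀ k, Continuous fun s => (φ s).1 k := fun k =>
      (continuous_apply k).comp (continuous_subtype_val.comp hc)
    exact congrFun ((denseRange_denseSeq (ℕ → Bool)).equalizer (c k) (c k') e) s
  have val : ∀ s k, (φ s).1 (rangeFactorization π k).2.choose = (φ s).1 k := fun s k =>
    fac _ _ (rangeFactorization π k).2.choose_spec s
  let ψ : (ℕ → Bool) → C(range π, ℝ) := fun s =>
    ⟨fun l => (φ s).1 l.2.choose, hq.continuous_iff.2 (by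
      have e : (fun l : range π => (φ s).1 l.2.choose) ∘ rangeFactorization π = (φ s).1 :=
        funext fun k => val s k
      rw [e]; exact (φ s).2)⟩
  choose δ hδ hs using hi
  have iso : ∀ s s', dist (ψ s') (ψ s) < δ s → s' = s := fun s s' h => hs s s' fun k => by
    have h1 := (ContinuousMap.dist_apply_le_dist (f := ψ s') (g := ψ s)
      (rangeFactorization π k)).trans_lt h
    rw [← val s k, ← val s' k]
    exact h1
  have hb : ∀ s, ∃ U ∈ countableBasis C(range π, ℝ), ψ s ∈ U ∧ U ⊆ Metric.ball (ψ s) (δ s) :=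
    fun s => (isBasis_countableBasis _).exists_subset_of_mem_open (Metric.mem_ball_self (hδ s))
      Metric.isOpen_ball
  choose U hU hm hsub using hb
  have := (countable_countableBasis C(range π, ℝ)).to_subtype
  have hinj : Injective fun s => (⟨U s, hU s⟩ : countableBasis C(range π, ℝ)) := fun s s' e => by
    have e1 : U s = U s' := congrArg Subtype.val e
    exact iso s' s (hsub s' (e1 ▸ hm s))
  have : Countable (ℕ → Bool) := hinj.countable
  obtain ⟨F, hF⟩ := exists_surjective_nat (ℕ → Bool)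
  obtain ⟨n, hn⟩ := hF fun n => !F n n
  have := congrFun hn n
  simp at this

/-- If `X` has a base of clopen sets, `K` is compact and the space of continuous two-valued
functions on `X` embeds in the space of continuous real functions on `K`, both with the
topology of pointwise convergence, with an image that is discrete in the sup norm, then `X` is
compact. -/
theorem compact_of_embedding {X K : Type*} [TopologicalSpace X] [TopologicalSpace K] [CompactSpace K]
    (hX : IsTopologicalBasis {s : Set X | IsClopen s})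
    (e : {f : X → Bool // Continuous f} → {g : K → ℝ // Continuous g}) (he : IsEmbedding e)
    (hd : ∀ f, ∃ δ > 0, ∀ f', (∀ k, |(e f').1 k - (e f).1 k| < δ) → f' = f) :
    CompactSpace X := by
  classical
  refine ⟨isCompact_of_finite_subcover fun {ι} U hU hcov => ?_⟩
  let A : Set {f : X → Bool // Continuous f} :=
    {f | ∃ t : Finset ι, ∀ x, f.1 x = true → x ∈ ⋃ i ∈ t, U i}
  let one : {f : X → Bool // Continuous f} := ⟨fun _ => true, continuous_const⟩
  have h1 : one ∈ closure A := (clos A one).2 fun n k => by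
    have : ∀ j : Fin n, ∃ i, ∃ W, IsClopen W ∧ k j ∈ W ∧ W ⊆ U i := fun j => by
      obtain ⟨i, hi⟩ := mem_iUnion.1 (hcov (mem_univ (k j)))
      obtain ⟨W, h1, h2, h3⟩ := hX.exists_subset_of_mem_open hi (hU i)
      exact ⟨i, W, h1, h2, h3⟩
    choose i W hW hk hWU using this
    have hc : IsClopen (⋃ j, W j) := isClopen_iUnion_of_finite hW
    refine ⟨⟨(⋃ j, W j).boolIndicator, (continuous_boolIndicator_iff_isClopen _).2 hc⟩,
      ⟨Finset.univ.image i, fun x hx => ?_⟩, fun j => ?_⟩
    · obtain ⟨j, hj⟩ := mem_iUnion.1 ((mem_iff_boolIndicator _ _).2 hx)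
      exact mem_iUnion₂.2 ⟨i j, by simp, hWU j hj⟩
    · exact (mem_iff_boolIndicator _ _).1 (mem_iUnion.2 ⟨j, hk j⟩)
  obtain ⟨B, hBA, hB, hB1⟩ := tight (e '' A) (e one)
    (image_closure_subset_closure_image he.continuous ⟨one, h1, rfl⟩)
  have hB' : (A ∩ e ⁻¹' B).Countable :=
    (hB.preimage_of_injOn he.injective.injOn).mono inter_subset_right
  have h2 : one ∈ closure (A ∩ e ⁻¹' B) := by
    rw [he.isInducing.closure_eq_preimage_closure_image, image_inter_preimage,
      inter_eq_right.2 hBA]
    exact hB1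
  obtain ⟨f, hf⟩ := hB'.exists_eq_range (closure_nonempty_iff.1 ⟨one, h2⟩)
  have hfA : ∀ n, f n ∈ A := fun n => (hf ▸ mem_range_self n : f n ∈ A ∩ e ⁻¹' B).1
  have ex : ∀ x, ∃ n, (f n).1 x = true := fun x => by
    obtain ⟨g, hg, h⟩ := (clos _ one).1 h2 1 fun _ => x
    rw [hf] at hg
    obtain ⟨n, rfl⟩ := hg
    exact ⟨n, h 0⟩
  let m : X → ℕ := fun x => Nat.find (ex x)
  have hm : Continuous m := continuous_discrete_rng.2 fun n => by
    have : m ⁻¹' {n} = (f n).1 ⁻¹' {true} ∩ ⋂ i ∈ {i | i < n}, (f i).1 ⁻¹' {false} := by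
      ext x
      simp [m, Nat.find_eq_iff]
    rw [this]
    exact ((isOpen_discrete _).preimage (f n).2).inter
      ((finite_lt_nat n).isOpen_biInter fun i _ => (isOpen_discrete _).preimage (f i).2)
  by_cases hfin : (range m).Finite
  · choose t ht using hfA
    refine ⟨hfin.toFinset.biUnion t, fun x _ => ?_⟩
    obtain ⟨i, hi, hx⟩ := mem_iUnion₂.1 (ht (m x) x (Nat.find_spec (ex x)))
    exact mem_iUnion₂.2 ⟨i, Finset.mem_biUnion.2 ⟨m x, by simp, hi⟩, hx⟩
  · exfalso
    let j := Set.Infinite.natEmbedding _ hfin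
    have hj : Injective fun n => (j n).1 := Subtype.val_injective.comp j.injective
    let φ : (ℕ → Bool) → {f : X → Bool // Continuous f} := fun s =>
      ⟨fun x => s (invFun (fun n => (j n).1) (m x)),
        (continuous_of_discreteTopology (f := fun n => s (invFun (fun n => (j n).1) n))).comp hm⟩
    have hφ : Injective φ := fun s s' h => by
      funext n
      obtain ⟨x, hx⟩ := (j n).2
      have := congrFun (congrArg Subtype.val h) x
      simp only [φ, hx] at this
      rwa [leftInverse_invFun hj n] at this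
    refine noCantor (e ∘ φ) (he.continuous.comp ?_) fun s => ?_
    · exact Continuous.subtype_mk (continuous_pi fun x => continuous_apply _) _
    · obtain ⟨δ, h0, h⟩ := hd (φ s)
      exact ⟨δ, h0, fun s' hs => hφ (h _ hs)⟩

end Pool.Agent.Lib.MP_0333c9_gt.TwoValued
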